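import Pool.Agent.H308.AL.Stm

/-! Special case of Furuta's inequality: the limit `ε → 0` (statement `S_FUR` of project AL,
helper308). -/

set_option autoImplicit false

open Filter Topology
open scoped NNReal

namespace Pool.Agent.H155.AL

open Pool.Agent.H308.AL

section

variable {H : Type} [NormedAddCommGroup H] [InnerProductSpace ℂ H] [CompleteSpace H]

theorem contOn_rpow (r : ℝ) (hr : 0 < r) :
    ContinuousOn (fun a : H →L[ℂ] H => a ^ r) {a | 0 ≤ a} := by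
  have h2 := CFC.continuousOn_nnrpow (A := H →L[ℂ] H) (⟨r, hr.le⟩ : ℝ≥0)
  refine h2.congr ?_
  intro a _
  exact (CFC.nnrpow_eq_rpow (A := H →L[ℂ] H) (a := a) (x := ⟨r, hr.le⟩) hr).symm

theorem nonneg_eps (ε : ℝ) (hε : 0 ≤ ε) : 0 ≤ algebraMap ℝ (H →L[ℂ] H) ε :=
  algebraMap_nonneg _ hε

theorem pow_add_eps (C : H →L[ℂ] H) (q ε : ℝ) (hq0 : 0 < q) (hq1 : q < 1) (hε : 0 < ε)
    (hC : 0 ≤ C) : (C + algebraMap ℝ (H →L[ℂ] H) ε) ^ q ≤
      C ^ q + algebraMap ℝ (H →L[ℂ] H) (ε ^ q) := by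
  have hsa : IsSelfAdjoint C := IsSelfAdjoint.of_nonneg hC
  have hspec : ∀ x ∈ spectrum ℝ C, 0 ≤ x := fun x hx => spectrum_nonneg_of_nonneg hC hx
  have h1 : C + algebraMap ℝ (H →L[ℂ] H) ε = cfc (fun x : ℝ => x + ε) C := by
    rw [cfc_add_const ε (fun x : ℝ => x) C (by fun_prop) hsa, cfc_id' ℝ C hsa]
  have h2 : (C + algebraMap ℝ (H →L[ℂ] H) ε) ^ q = cfc (fun x : ℝ => (x + ε) ^ q) C := by
    rw [h1]
    exact CFC.cfc_rpow (fun x hx => add_pos_of_nonneg_of_pos (hspec x hx) hε) (by fun_prop) hsa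
  have hcont1 : ContinuousOn (fun x : ℝ => x ^ q) (spectrum ℝ C) :=
    (Real.continuous_rpow_const hq0.le).continuousOn
  have hcont2 : ContinuousOn (fun x : ℝ => (x + ε) ^ q) (spectrum ℝ C) :=
    ((Real.continuous_rpow_const hq0.le).comp (continuous_id.add continuous_const)).continuousOn
  have h3 : C ^ q + algebraMap ℝ (H →L[ℂ] H) (ε ^ q) = cfc (fun x : ℝ => x ^ q + ε ^ q) C := by
    rw [cfc_add_const (ε ^ q) (fun x : ℝ => x ^ q) C hcont1 hsa, CFC.rpow_eq_cfc_real hC]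
  rw [h2, h3]
  refine cfc_mono (fun x hx => ?_) hcont2 (hcont1.add continuousOn_const)
  exact Real.rpow_add_le_add_rpow (hspec x hx) hε.le hq0.le hq1.le

end

theorem fur (h1 : S_FUR0) : S_FUR := by
  intro H _ _ _ A C q hq0 hq1 hA hC hCA
  have hev : ∀ ε : ℝ, 0 < ε →
      (CFC.sqrt (A + algebraMap ℝ (H →L[ℂ] H) (ε ^ q)) * (C + algebraMap ℝ (H →L[ℂ] H) ε) *
        CFC.sqrt (A + algebraMap ℝ (H →L[ℂ] H) (ε ^ q))) ^ q ≤
        (A + algebraMap ℝ (H →L[ℂ] H) (ε ^ q)) ^ (1 + q) := by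
    intro ε hε
    have hεq : 0 < ε ^ q := Real.rpow_pos_of_pos hε q
    have hsp : ∀ (B : H →L[ℂ] H) (δ : ℝ), 0 ≤ B → 0 < δ →
        IsUnit (B + algebraMap ℝ (H →L[ℂ] H) δ) := by
      intro B δ hB hδ
      have hu : IsUnit (algebraMap ℝ (H →L[ℂ] H) δ) := (isUnit_iff_ne_zero.2 hδ.ne').map _
      exact CStarAlgebra.isUnit_of_le (algebraMap ℝ (H →L[ℂ] H) δ)
        (le_add_of_nonneg_left hB) ⟨nonneg_eps δ hδ.le, hu⟩
    refine h1 H _ _ q hq0 hq1 (add_nonneg hA (nonneg_eps _ hεq.le))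
      (add_nonneg hC (nonneg_eps _ hε.le)) (hsp A _ hA hεq) (hsp C _ hC hε) ?_
    exact (pow_add_eps C q ε hq0 hq1 hε hC).trans (by gcongr)
  -- continuity at 0
  have hcA : ContinuousOn (fun ε : ℝ => A + algebraMap ℝ (H →L[ℂ] H) (ε ^ q)) (Set.Ici 0) :=
    (continuous_const.add ((continuous_algebraMap ℝ (H →L[ℂ] H)).comp
      (Real.continuous_rpow_const hq0.le))).continuousOn
  have hcC : ContinuousOn (fun ε : ℝ => C + algebraMap ℝ (H →L[ℂ] H) ε) (Set.Ici 0) :=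
    (continuous_const.add (continuous_algebraMap ℝ (H →L[ℂ] H))).continuousOn
  have hmA : Set.MapsTo (fun ε : ℝ => A + algebraMap ℝ (H →L[ℂ] H) (ε ^ q)) (Set.Ici 0)
      {a | 0 ≤ a} := by
    intro ε hε
    exact add_nonneg hA (nonneg_eps _ (Real.rpow_nonneg hε q))
  have hs : ContinuousOn (fun ε : ℝ => CFC.sqrt (A + algebraMap ℝ (H →L[ℂ] H) (ε ^ q)))
      (Set.Ici 0) := CFC.continuousOn_sqrt.comp hcA hmA
  have hP : ContinuousOn (fun ε : ℝ => CFC.sqrt (A + algebraMap ℝ (H →L[ℂ] H) (ε ^ q)) *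
      (C + algebraMap ℝ (H →L[ℂ] H) ε) * CFC.sqrt (A + algebraMap ℝ (H →L[ℂ] H) (ε ^ q)))
      (Set.Ici 0) := (hs.mul hcC).mul hs
  have hmP : Set.MapsTo (fun ε : ℝ => CFC.sqrt (A + algebraMap ℝ (H →L[ℂ] H) (ε ^ q)) *
      (C + algebraMap ℝ (H →L[ℂ] H) ε) * CFC.sqrt (A + algebraMap ℝ (H →L[ℂ] H) (ε ^ q)))
      (Set.Ici 0) {a | 0 ≤ a} := by
    intro ε hε
    exact conjugate_nonneg_of_nonneg (add_nonneg hC (nonneg_eps _ hε)) (CFC.sqrt_nonneg _)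
  have hL := (contOn_rpow (H := H) q hq0).comp hP hmP
  have hR := (contOn_rpow (H := H) (1 + q) (by linarith)).comp hcA hmA
  have hL0 := (hL 0 Set.self_mem_Ici).mono Set.Ioi_subset_Ici_self
  have hR0 := (hR 0 Set.self_mem_Ici).mono Set.Ioi_subset_Ici_self
  have hle := le_of_tendsto_of_tendsto hL0 hR0
    (Filter.eventually_of_mem self_mem_nhdsWithin (fun ε hε => hev ε hε))
  have h0 : (0 : ℝ) ^ q = 0 := Real.zero_rpow hq0.ne'
  simp only [Function.comp_apply, h0, map_zero, add_zero] at hle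
  exact hle

end Pool.Agent.H155.AL
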