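import Pool.Agent.H484.AL.Stm

/-!
# Project AL (helper484), task PAIR (helper155): number of `b` for which two non-parallel `l` occur
-/

set_option autoImplicit false

namespace Pool.Agent.H484.AL

open Finset
open scoped Classical

namespace PAIR

/-- division by `g` -/
lemma ev_div {e g M a0 : ℕ} {α b l : Fin e → ℕ} {A L lam : ℕ} (hg : 1 ≤ g)
    (hlam : ∑ i, α i * l i = g * lam) (h : Ev e g M a0 α b l A L) :
    ∃ k : ℕ, A < k ∧ k ≤ A + L ∧ M ∣ a0 * k + lam + ∑ i, b i * l i := by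
  obtain ⟨k, h1, h2, h3⟩ := h
  refine ⟨k, h1, h2, ?_⟩
  have e1 : g * a0 * k + ∑ i, (α i + g * b i) * l i = g * (a0 * k + lam + ∑ i, b i * l i) := by
    have e2 : ∑ i, (α i + g * b i) * l i = ∑ i, α i * l i + g * ∑ i, b i * l i := by
      rw [mul_sum, ← sum_add_distrib]
      exact sum_congr rfl fun i _ => by ring
    rw [e2, hlam]
    ring
  rw [e1] at h3
  exact Nat.dvd_of_mul_dvd_mul_left hg h3

/-- `g` divides `α·l` -/
lemma ev_dvd {e g M a0 : ℕ} {α b l : Fin e → ℕ} {A L : ℕ} (h : Ev e g M a0 α b l A L) :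
    ∃ lam, ∑ i, α i * l i = g * lam := by
  obtain ⟨k, -, -, h3⟩ := h
  have h4 : g ∣ g * a0 * k + ∑ i, (α i + g * b i) * l i := (Dvd.intro _ rfl).trans h3
  have e2 : g * a0 * k + ∑ i, (α i + g * b i) * l i =
      ∑ i, α i * l i + g * (a0 * k + ∑ i, b i * l i) := by
    have e3 : ∑ i, (α i + g * b i) * l i = ∑ i, α i * l i + g * ∑ i, b i * l i := by
      rw [mul_sum, ← sum_add_distrib]
      exact sum_congr rfl fun i _ => by ring
    rw [e3]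
    ring
  rw [e2] at h4
  exact (Nat.dvd_add_left (Dvd.intro _ rfl)).1 h4

/-- change of the coordinates `p`, `q` -/
lemma sum_change {e M : ℕ} (l : Fin e → ℕ) {p q : Fin e} (hpq : p ≠ q) (b b0 : Fin e → Fin M)
    (h : ∀ i, i ≠ p → i ≠ q → b i = b0 i) :
    ((∑ i, (b i : ℕ) * l i : ℕ) : ℤ) = ((∑ i, (b0 i : ℕ) * l i : ℕ) : ℤ) - (b0 p : ℕ) * (l p : ℤ) -
      (b0 q : ℕ) * (l q : ℤ) + (l p : ℤ) * (b p : ℕ) + (l q : ℤ) * (b q : ℕ) := by
  have h1 : ∑ i, (((b i : ℕ) : ℤ) - ((b0 i : ℕ) : ℤ)) * (l i : ℤ) =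
      (((b p : ℕ) : ℤ) - ((b0 p : ℕ) : ℤ)) * (l p : ℤ) +
      (((b q : ℕ) : ℤ) - ((b0 q : ℕ) : ℤ)) * (l q : ℤ) :=
    sum_eq_add p q hpq (fun i _ hi => by rw [h i hi.1 hi.2, sub_self, zero_mul])
      (fun hh => absurd (mem_univ _) hh) (fun hh => absurd (mem_univ _) hh)
  have h2 : ∑ i, (((b i : ℕ) : ℤ) - ((b0 i : ℕ) : ℤ)) * (l i : ℤ) =
      ((∑ i, (b i : ℕ) * l i : ℕ) : ℤ) - ((∑ i, (b0 i : ℕ) * l i : ℕ) : ℤ) := by
    push_cast
    rw [← sum_sub_distrib]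
    exact sum_congr rfl fun i _ => by ring
  rw [h2] at h1
  linear_combination h1

lemma card_sub {e : ℕ} {p q : Fin e} (hpq : p ≠ q) :
    Fintype.card {i : Fin e // i ≠ p ∧ i ≠ q} = e - 2 := by
  rw [Fintype.card_subtype]
  have h1 : (univ.filter fun i : Fin e => i ≠ p ∧ i ≠ q) = (univ.erase p).erase q := by
    ext i
    simp only [mem_filter, mem_univ, true_and, mem_erase, and_true]
    exact and_comm
  rw [h1, card_erase_of_mem (mem_erase.2 ⟨hpq.symm, mem_univ _⟩), card_erase_of_mem (mem_univ _),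
    card_univ, Fintype.card_fin]
  omega

end PAIR

open PAIR in
/-- PAIR -/
theorem t_PAIR (hPAIR2 : S_PAIR2) : S_PAIR := by
  intro e g M a0 α l l' A L A' L' Dm p q hg hM hcop hpq hne hle
  set B := univ.filter (fun b : Fin e → Fin M => Ev e g M a0 α (fun i => (b i : ℕ)) l A L ∧
    Ev e g M a0 α (fun i => (b i : ℕ)) l' A' L') with hB
  set r : (Fin e → Fin M) → ({i : Fin e // i ≠ p ∧ i ≠ q} → Fin M) := fun b i => b i with hr
  have h1 := card_le_mul_card_image (f := r) B ((L + Dm) * (L' + Dm)) ?_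
  · refine h1.trans (Nat.mul_le_mul_left _ ?_)
    refine (card_le_univ _).trans ?_
    rw [Fintype.card_fun, Fintype.card_fin, card_sub hpq]
  intro t ht
  obtain ⟨b0, hb0, rfl⟩ := mem_image.1 ht
  have hb0' := (mem_filter.1 hb0).2
  obtain ⟨lam, hlam⟩ := ev_dvd hb0'.1
  obtain ⟨lam', hlam'⟩ := ev_dvd hb0'.2
  have h2 := hPAIR2 M a0
    ((lam : ℤ) + (((∑ i, (b0 i : ℕ) * l i : ℕ) : ℤ) - (b0 p : ℕ) * (l p : ℤ) -
      (b0 q : ℕ) * (l q : ℤ)))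
    ((lam' : ℤ) + (((∑ i, (b0 i : ℕ) * l' i : ℕ) : ℤ) - (b0 p : ℕ) * (l' p : ℤ) -
      (b0 q : ℕ) * (l' q : ℤ))) (l p) (l q) (l' p) (l' q) A L A' L' Dm hM hcop hne hle
  refine le_trans (card_le_card_of_injOn (fun b : Fin e → Fin M => ((b p : ℕ), (b q : ℕ))) ?_ ?_) h2
  · intro b hb
    obtain ⟨hb1, hb2⟩ := mem_filter.1 (mem_coe.1 hb)
    obtain ⟨-, hb3, hb4⟩ := mem_filter.1 hb1
    have hbi : ∀ i, i ≠ p → i ≠ q → b i = b0 i := fun i hi1 hi2 => congrFun hb2 ⟨i, hi1, hi2⟩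
    obtain ⟨k, hk1, hk2, hk3⟩ := ev_div hg hlam hb3
    obtain ⟨k', hk1', hk2', hk3'⟩ := ev_div hg hlam' hb4
    refine mem_coe.2 (mem_filter.2 ⟨mem_product.2 ⟨mem_range.2 (b p).2, mem_range.2 (b q).2⟩,
      ⟨k, hk1, hk2, ?_⟩, ⟨k', hk1', hk2', ?_⟩⟩)
    · have h3 : (M : ℤ) ∣ ((a0 * k + lam + ∑ i, (b i : ℕ) * l i : ℕ) : ℤ) :=
        Int.natCast_dvd_natCast.2 hk3
      have h4 : ((a0 * k + lam + ∑ i, (b i : ℕ) * l i : ℕ) : ℤ) =
          (a0 : ℤ) * k + lam + ((∑ i, (b i : ℕ) * l i : ℕ) : ℤ) := by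
        rw [Nat.cast_add, Nat.cast_add, Nat.cast_mul]
      rw [h4, sum_change l hpq b b0 hbi] at h3
      refine h3.trans (dvd_of_eq ?_)
      ring
    · have h3 : (M : ℤ) ∣ ((a0 * k' + lam' + ∑ i, (b i : ℕ) * l' i : ℕ) : ℤ) :=
        Int.natCast_dvd_natCast.2 hk3'
      have h4 : ((a0 * k' + lam' + ∑ i, (b i : ℕ) * l' i : ℕ) : ℤ) =
          (a0 : ℤ) * k' + lam' + ((∑ i, (b i : ℕ) * l' i : ℕ) : ℤ) := by
        rw [Nat.cast_add, Nat.cast_add, Nat.cast_mul]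
      rw [h4, sum_change l' hpq b b0 hbi] at h3
      refine h3.trans (dvd_of_eq ?_)
      ring
  · intro b hb b' hb' hbb
    have hb2 := (mem_filter.1 (mem_coe.1 hb)).2
    have hb2' := (mem_filter.1 (mem_coe.1 hb')).2
    have h3 : ((b p : ℕ), (b q : ℕ)) = ((b' p : ℕ), (b' q : ℕ)) := hbb
    rw [Prod.mk.injEq] at h3
    funext i
    by_cases hp : i = p
    · rw [hp]
      exact Fin.ext h3.1
    by_cases hq : i = q
    · rw [hq]
      exact Fin.ext h3.2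
    have h5 : r b ⟨i, hp, hq⟩ = r b' ⟨i, hp, hq⟩ := by rw [hb2, hb2']
    exact h5

end Pool.Agent.H484.AL
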